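import Pool.Agent.W5h64.SB.Sparse

/-! Bricks whose repeated composition factors are sparse are stable. -/

namespace Pool.Agent.Results.MP_e14618_al.SparseRepeatedFactors

open W5h64.SB

universe u

/-- Let `A` be a finite-dimensional algebra over a field `K` and `e_1, …, e_n` orthogonal
idempotents with sum `1` and `e_j A e_j = K e_j + e_j J e_j` (for instance `A` basic over an
algebraically closed field and the `e_j` primitive). Let `f_i`, `i ∈ ℕ`, be pairwise
non-isomorphic bricks of dimension `d` whose repeated composition factors are sparse (see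
`Sparse`; for instance there is no arrow of the quiver of `A` between two distinct repeated
composition factors of `f_i`, or the socle, or the top, contains no repeated factor). Then each
`f_i` is stable for some weight, and infinitely many of them are stable for one common weight. -/
theorem result (K : Type u) [Field K] (A : Type u) [Ring A] [Algebra K A]
    [FiniteDimensional K A] {n : ℕ} (e : Fin n → A) (he : CompleteOrthogonalIdempotents e)
    (hbasic : ∀ (j : Fin n) (a : A), ∃ c : K, e j * a * e j - c • e j ∈ Ring.jacobson A)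
    (d : ℕ) (f : ℕ → (A →ₐ[K] Module.End K (Fin d → K)))
    (hiso : ∀ i j : ℕ, i ≠ j → ¬ Iso (f i) (f j))
    (hbrick : ∀ i, IsBrick (f i)) (hsparse : ∀ i, Sparse (f i) e) :
    (∀ i, ∃ c : Fin n → ℤ, IsStab (f i) e c) ∧
      ∃ (c : Fin n → ℤ) (g : ℕ → (A →ₐ[K] Module.End K (Fin d → K))),
        (∀ i, ∃ m, g i = f m) ∧ (∀ i j : ℕ, i ≠ j → ¬ Iso (g i) (g j)) ∧
          ∀ i, IsStab (g i) e c := by
  have h1 : ∀ i, ∃ c : Fin n → ℤ, IsStab (f i) e c := fun i =>
    exists_isStab_sparse (f i) e he hbasic (hbrick i) (hsparse i)
  obtain ⟨c, s, hs, hc⟩ := exists_common_weight e d f h1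
  exact ⟨h1, c, fun i => f (s i), fun i => ⟨s i, rfl⟩,
    fun i j hij => hiso _ _ fun h => hij (hs.injective h), hc⟩

end Pool.Agent.Results.MP_e14618_al.SparseRepeatedFactors
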